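import Pool.Agent.Y75.NK.Thm

/-! # Limits of marked groups and negative `K`-groups: definitions -/

set_option autoImplicit false

open CategoryTheory

noncomputable section

namespace Pool.Agent.L0h7.KN

open Pool.Agent.Y75.NK

/-- `B` is the colimit of the sequence of rings `D` along the maps `c` -/
structure RCol (D : ℕ ⥤ RingCat.{0}) (B : RingCat.{0}) (c : ∀ i, D.obj i ⟶ B) : Prop where
  comp : ∀ {i j : ℕ} (h : i ⟶ j), D.map h ≫ c j = c i
  surj : ∀ b : B, ∃ (i : ℕ) (a : D.obj i), (c i).hom a = b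
  inj : ∀ (i : ℕ) (a : D.obj i), (c i).hom a = 0 → ∃ (j : ℕ) (h : i ⟶ j), (D.map h).hom a = 0

/-- `B` is the colimit of the sequence of abelian groups `D` along the maps `c` -/
structure ACol (D : ℕ ⥤ AddCommGrpCat.{0}) (B : AddCommGrpCat.{0}) (c : ∀ i, D.obj i ⟶ B) :
    Prop where
  comp : ∀ {i j : ℕ} (h : i ⟶ j), D.map h ≫ c j = c i
  surj : ∀ b : B, ∃ (i : ℕ) (a : D.obj i), (c i).hom a = b
  inj : ∀ (i : ℕ) (a : D.obj i), (c i).hom a = 0 → ∃ (j : ℕ) (h : i ⟶ j), (D.map h).hom a = 0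

/-- `B` is the colimit of the sequence of groups `D` along the maps `c` -/
structure GCol (D : ℕ ⥤ GrpCat.{0}) (B : GrpCat.{0}) (c : ∀ i, D.obj i ⟶ B) : Prop where
  comp : ∀ {i j : ℕ} (h : i ⟶ j), D.map h ≫ c j = c i
  surj : ∀ b : B, ∃ (i : ℕ) (a : D.obj i), (c i).hom a = b
  inj : ∀ (i : ℕ) (a : D.obj i), (c i).hom a = 1 → ∃ (j : ℕ) (h : i ⟶ j), (D.map h).hom a = 1

/-- The functor `F` commutes with colimits of sequences. -/
def FC (F : RingCat.{0} ⥤ AddCommGrpCat.{0}) : Prop :=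
  ∀ (D : ℕ ⥤ RingCat.{0}) (B : RingCat.{0}) (c : ∀ i, D.obj i ⟶ B), RCol D B c →
    ACol (D ⋙ F) (F.obj B) (fun i => F.map (c i))

/-- the free group with `n` generators -/
abbrev fm (n : ℕ) : GrpCat.{0} := GrpCat.of (FreeGroup (Fin n))

/-- the group with `n` generators and relators `W` -/
abbrev PG (n : ℕ) (W : Set (FreeGroup (Fin n))) : GrpCat.{0} :=
  GrpCat.of (FreeGroup (Fin n) ⧸ Subgroup.normalClosure W)

/-- the canonical map -/
def toPG (n : ℕ) (W : Set (FreeGroup (Fin n))) : fm n ⟶ PG n W :=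
  GrpCat.ofHom (QuotientGroup.mk' (Subgroup.normalClosure W))

/-- The value of a formal matrix, a matrix over the group ring of `ℤᵐ × Fₙ`. -/
def ev (R : Type) [Ring R] (m : ℕ) {n d : ℕ}
    (M : Matrix (Fin d) (Fin d) (MonoidAlgebra R ((EF m).obj (fm n)))) {G : GrpCat.{0}}
    (f : fm n ⟶ G) : Matrix (Fin d) (Fin d) (MonoidAlgebra R ((EF m).obj G)) :=
  M.map (MonoidAlgebra.mapDomainRingHom R ((EF m).map f).hom)

/-- The value of the formal matrix `M` is idempotent and its class in `K_{-m}(R[G])` is zero. -/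
def Triv (R : Type) [Ring R] (m : ℕ) {n d : ℕ}
    (M : Matrix (Fin d) (Fin d) (MonoidAlgebra R ((EF m).obj (fm n)))) {G : GrpCat.{0}}
    (f : fm n ⟶ G) : Prop :=
  ∃ h : ev R m M f * ev R m M f = ev R m M f, kclass R m G ⟨d, ev R m M f, h⟩ = 0

/-- the relations of length at most `L` which hold in `G` -/
def rels {n : ℕ} {G : GrpCat.{0}} (f : fm n ⟶ G) (L : ℕ) : Set (FreeGroup (Fin n)) :=
  {w | w.toWord.length ≤ L ∧ f.hom w = 1}

/-- No word of length at most `L` has as value a nontrivial element of order at most `L`. -/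
def NoTors {n : ℕ} {G : GrpCat.{0}} (f : fm n ⟶ G) (L : ℕ) : Prop :=
  ∀ w : FreeGroup (Fin n), w.toWord.length ≤ L → ∀ k : ℕ, 0 < k → k ≤ L →
    f.hom w ^ k = 1 → f.hom w = 1

/-- `G` is torsion-free -/
def TFr (G : GrpCat.{0}) : Prop := ∀ g : G, ∀ k : ℕ, 0 < k → g ^ k = 1 → g = 1

/-- `G` is locally embeddable into the class `C` of groups -/
def LE (C : GrpCat.{0} → Prop) (G : GrpCat.{0}) : Prop :=
  ∀ E : Finset G, ∃ (Q : GrpCat.{0}) (f : G → Q), C Q ∧
    (∀ x ∈ E, ∀ y ∈ E, f (x * y) = f x * f y) ∧ ∀ x ∈ E, ∀ y ∈ E, f x = f y → x = y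

end Pool.Agent.L0h7.KN
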