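import Pool.Agent.L0h7.KN.Stm

/-! # Limits of marked groups and negative `K`-groups: assembly -/

set_option autoImplicit false

open CategoryTheory Filter

noncomputable section

namespace Pool.Agent.L0h7.KN

open Pool.Agent.Y75.NK

/-- the words of length at most `j` -/
theorem finite_words (n j : ℕ) : {w : FreeGroup (Fin n) | w.toWord.length ≤ j}.Finite := by
  have h1 : {l : List (Fin n × Bool) | l.length ≤ j}.Finite := List.finite_length_le _ j
  exact Set.Finite.preimage (f := FreeGroup.toWord) FreeGroup.toWord_injective.injOn h1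

/-- for finitely many words the relations in the limit are those of almost all terms -/
theorem ev_pattern {n : ℕ} (u : Ultrafilter ℕ) (G : ℕ → GrpCat.{0}) (f : ∀ k, fm n ⟶ G k)
    (G' : GrpCat.{0}) (f' : fm n ⟶ G')
    (h : ∀ w, f'.hom w = 1 ↔ ∀ᶠ k in (u : Filter ℕ), (f k).hom w = 1)
    (E : Set (FreeGroup (Fin n))) (hE : E.Finite) :
    ∀ᶠ k in (u : Filter ℕ), ∀ w ∈ E, (f'.hom w = 1 ↔ (f k).hom w = 1) := by
  rw [Filter.eventually_all_finite hE]
  intro w _
  by_cases hw : f'.hom w = 1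
  · filter_upwards [(h w).1 hw] with k hk
    exact ⟨fun _ => hk, fun _ => hw⟩
  · have h1 : ¬ ∀ᶠ k in (u : Filter ℕ), (f k).hom w = 1 := fun hc => hw ((h w).2 hc)
    have h2 : ∀ᶠ k in (u : Filter ℕ), ¬ (f k).hom w = 1 := Ultrafilter.eventually_not.2 h1
    filter_upwards [h2] with k hk
    exact ⟨fun h3 => absurd h3 hw, fun h3 => absurd h3 hk⟩

/-- the map from the group defined by some of the relations -/
def fromPG {n : ℕ} {G : GrpCat.{0}} (f : fm n ⟶ G) (W : Set (FreeGroup (Fin n)))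
    (hW : ∀ w ∈ W, f.hom w = 1) : PG n W ⟶ G :=
  GrpCat.ofHom (QuotientGroup.lift (Subgroup.normalClosure W) f.hom
    (Subgroup.normalClosure_le_normal (N := f.hom.ker) hW))

theorem toPG_from {n : ℕ} {G : GrpCat.{0}} (f : fm n ⟶ G) (W : Set (FreeGroup (Fin n)))
    (hW : ∀ w ∈ W, f.hom w = 1) : toPG n W ≫ fromPG f W hW = f := by
  apply GrpCat.hom_ext
  apply MonoidHom.ext
  intro x
  rfl

theorem triv_mono {n : ℕ} (hM : S_MNO) (R : Type) [Ring R] (m d : ℕ)
    (M : Matrix (Fin d) (Fin d) (MonoidAlgebra R ((EF m).obj (fm n))))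
    (W W' : Set (FreeGroup (Fin n))) (h : W ⊆ W') (hT : Triv R m M (toPG n W)) :
    Triv R m M (toPG n W') := by
  have h1 : ∀ w ∈ W, (toPG n W').hom w = 1 := by
    intro w hw
    exact (QuotientGroup.eq_one_iff (N := Subgroup.normalClosure W') w).2
      (Subgroup.subset_normalClosure (h hw))
  have h2 := hM R m n d M _ _ (toPG n W) (fromPG (toPG n W') W h1) hT
  rwa [toPG_from] at h2

theorem idem_eq {A : Type} [Ring A] (e : Idem A) (B : Matrix (Fin e.n) (Fin e.n) A)
    (h : B * B = B) (hB : B = e.e) : (⟨e.n, B, h⟩ : Idem A) = e := by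
  subst hB
  rfl

theorem t_MAIN (hMNO : S_MNO) (hSHT : ∀ (R : Type) [Ring R] (m n d : ℕ)
    (M : Matrix (Fin d) (Fin d) (MonoidAlgebra R ((EF m).obj (fm n)))) (G : GrpCat.{0})
    (f : fm n ⟶ G), Function.Surjective f.hom → Triv R m M f →
    ∃ j : ℕ, Triv R m M (toPG n (rels f j))) (hPAT : S_PAT) (hLIMG : S_LIMG) (hSUB : S_SUB)
    (hREP : S_REP) : S_MAIN := by
  intro C R _ m
  constructor
  · intro ha n d M
    by_contra hcon
    push Not at hcon
    choose G hC f hid hNT hnT using hcon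
    obtain ⟨G', f', hsurj, hTF, hLE, hrel⟩ := hLIMG C n (Filter.hyperfilter ℕ)
      (by rw [← Nat.cofinite_eq_atTop]; exact Filter.hyperfilter_le_cofinite) G f hC hNT
    obtain ⟨E, hE⟩ := hPAT R m n d M
    have h1 := ev_pattern _ G f G' f' hrel E E.finite_toSet
    obtain ⟨k, hk⟩ := h1.exists
    have h2 : ev R m M f' * ev R m M f' = ev R m M f' :=
      hE (G k) G' (f k) f' (fun w hw => (hk w hw).symm) (hid k)
    have h3 : Triv R m M f' := ⟨h2, ha G' hTF hLE _⟩
    obtain ⟨j, hj⟩ := hSHT R m n d M G' f' hsurj h3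
    have h4 := ev_pattern _ G f G' f' hrel _ (finite_words n j)
    have h5 : ∀ᶠ k in (Filter.hyperfilter ℕ : Filter ℕ), j ≤ k := by
      have : (Filter.hyperfilter ℕ : Filter ℕ) ≤ Filter.atTop := by
        rw [← Nat.cofinite_eq_atTop]
        exact Filter.hyperfilter_le_cofinite
      exact this (Filter.eventually_ge_atTop j)
    obtain ⟨l, hl, hjl⟩ := (h4.and h5).exists
    have h6 : rels f' j = rels (f l) j := by
      ext w
      constructor
      · rintro ⟨h7, h8⟩
        exact ⟨h7, (hl w h7).1 h8⟩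
      · rintro ⟨h7, h8⟩
        exact ⟨h7, (hl w h7).2 h8⟩
    rw [h6] at hj
    have h7 : rels (f l) j ⊆ rels (f l) l := fun w hw => ⟨hw.1.trans hjl, hw.2⟩
    exact hnT l (triv_mono hMNO R m d M _ _ h7 hj)
  · intro hb G hTF hLE x
    have key : ∀ e : Idem (MonoidAlgebra R ((EF m).obj G)), kclass R m G e = 0 := by
      intro e
      obtain ⟨n, M, f, hf⟩ := hREP R m G e
      obtain ⟨L, hL⟩ := hb n e.n M
      obtain ⟨E, hE⟩ := hPAT R m n e.n M
      obtain ⟨Q, g, hCQ, hNT, hrels, hpat⟩ := hSUB C G hTF hLE n f E L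
      have h1 : ev R m M f * ev R m M f = ev R m M f := by
        rw [hf]
        exact e.idem
      have h2 := hE G Q f g hpat h1
      have h3 := hL Q hCQ g h2 hNT
      rw [hrels] at h3
      have h4 := hMNO R m n e.n M _ _ (toPG n (rels f L))
        (fromPG f (rels f L) (fun w hw => hw.2)) h3
      rw [toPG_from] at h4
      obtain ⟨h5, h6⟩ := h4
      rwa [idem_eq e _ h5 hf] at h6
    obtain ⟨e, e', he⟩ := kclass_generate R m G x
    rw [he, key e, key e', sub_zero]

end Pool.Agent.L0h7.KN
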