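import Pool.Agent.L0h7.KN.Defs

/-! # Limits of marked groups and negative `K`-groups: statements of the modules -/

set_option autoImplicit false

open CategoryTheory

noncomputable section

namespace Pool.Agent.L0h7.KN

open Pool.Agent.Y75.NK

/-- KZ: `K₀` commutes with colimits of sequences of rings.

Sketch. (surj) `exists_sub`: an element of `K₀(B)` is a difference `cls e - cls f` of classes of
idempotent matrices; lift the entries of `e` to one stage, the relation `e e = e` holds at a later
one. (inj) Let `L` be the direct limit of the groups `K₀(D_i)` (`AddCommGroup.DirectLimit`) and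
`of i : K₀(D_i) → L`. Two idempotent matrices over `D_i`, `D_j` with the same image over `B` have the
same image at a later stage, so their classes agree in `L`. Define `ψ : K₀(B) → L` by
`cls e ↦ of i (cls e_i)` for any lift `e_i` of `e`; it respects the relations of `K₀(B)` (`rel B`;
for `e.Equiv f` lift `x`, `y`). Then `ψ (K₀(c i) x) = of i x`, so `K₀(c i) x = 0` gives `of i x = 0`,
and `AddCommGroup.DirectLimit.of.zero_exact` gives the stage `j`. -/
def S_KZ : Prop := FC K0F

/-- MON: monoid rings commute with colimits of sequences of rings. (Coefficientwise.) -/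
def S_MON : Prop :=
  ∀ (M : Type) [CommMonoid M] (D : ℕ ⥤ RingCat.{0}) (B : RingCat.{0}) (c : ∀ i, D.obj i ⟶ B),
    RCol D B c → RCol (D ⋙ monF M) ((monF M).obj B) (fun i => (monF M).map (c i))

/-- CON: the contraction commutes with colimits of sequences of rings. (inj: let
`x ∈ F(D_i[t, t⁻¹])` become `F(plus) y + F(minus) z` over `B`; lift `y`, `z` to a common stage
`j ≥ i` (`S_MON` for `ℕ`, (surj) for `F`); the difference is zero over `B[t, t⁻¹]`, hence at a later
stage (`S_MON` for `ℤ`, (inj) for `F`).) -/
def S_CON : Prop := S_MON → ∀ F : RingCat.{0} ⥤ AddCommGrpCat.{0}, FC F → FC (contr F)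

/-- GRC: group rings commute with colimits of sequences of groups -/
def S_GRC : Prop :=
  ∀ (R : Type) [Ring R] (D : ℕ ⥤ GrpCat.{0}) (B : GrpCat.{0}) (c : ∀ i, D.obj i ⟶ B),
    GCol D B c → RCol (D ⋙ gr R) ((gr R).obj B) (fun i => (gr R).map (c i))

/-- EFC: `G ↦ ℤᵐ × G` commutes with colimits of sequences of groups (induction on `m`) -/
def S_EFC : Prop :=
  ∀ (m : ℕ) (D : ℕ ⥤ GrpCat.{0}) (B : GrpCat.{0}) (c : ∀ i, D.obj i ⟶ B),
    GCol D B c → GCol (D ⋙ EF m) ((EF m).obj B) (fun i => (EF m).map (c i))

/-- MNO: monotonicity (naturality of `kclass`, `K0.map_cls`) -/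
def S_MNO : Prop :=
  ∀ (R : Type) [Ring R] (m n d : ℕ)
    (M : Matrix (Fin d) (Fin d) (MonoidAlgebra R ((EF m).obj (fm n)))) (G H : GrpCat.{0})
    (f : fm n ⟶ G) (g : G ⟶ H), Triv R m M f → Triv R m M (f ≫ g)

/-- STG: if the class is trivial in the colimit then it is trivial at some stage. (First the matrix
is idempotent at some stage `j`, by `S_EFC` and `S_GRC`. Its class at stage `j` has image zero in
`K_{-m}(R[B])` by naturality of `kclass`, so it is zero at a later stage by `FC (Kneg m)`, `S_GRC`.) -/
def S_STG : Prop :=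
  S_KZ → S_MON → S_CON → S_GRC → S_EFC →
  ∀ (R : Type) [Ring R] (m n d : ℕ)
    (M : Matrix (Fin d) (Fin d) (MonoidAlgebra R ((EF m).obj (fm n))))
    (D : ℕ ⥤ GrpCat.{0}) (B : GrpCat.{0}) (c : ∀ i, D.obj i ⟶ B), GCol D B c →
    ∀ f : fm n ⟶ D.obj 0, Triv R m M (f ≫ c 0) → ∃ (j : ℕ) (h : 0 ⟶ j), Triv R m M (f ≫ D.map h)

/-- SHT: a class which is trivial in `G`, where `f : Fₙ → G` is surjective, is trivial in the group
defined by the relations of length at most `j` for some `j`. (`G` is the colimit of these groups:
apply `S_STG` to the functor `j ↦ PG n (rels f j)`.) -/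
def S_SHT : Prop :=
  S_KZ → S_MON → S_CON → S_GRC → S_EFC → S_STG →
  ∀ (R : Type) [Ring R] (m n d : ℕ)
    (M : Matrix (Fin d) (Fin d) (MonoidAlgebra R ((EF m).obj (fm n)))) (G : GrpCat.{0})
    (f : fm n ⟶ G), Function.Surjective f.hom → Triv R m M f →
    ∃ j : ℕ, Triv R m M (toPG n (rels f j))

/-- PAT: two maps of the free group with the same relations among finitely many words have the same
values of the formal matrix idempotent. (`E` = the words `u v⁻¹`, `u, v` the projections to `Fₙ` of
the elements of `ℤᵐ × Fₙ` in the supports of the entries of `M * M - M`. By induction on `m` an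
element `x` of `ℤᵐ × Fₙ` has image 1 in `ℤᵐ × G` if and only if its projection has image 1 in `G`
and `x` lies in `Fₙ`; so two elements of the support have the same image in `ℤᵐ × G` if and only if
they have the same image in `ℤᵐ × H`.) -/
def S_PAT : Prop :=
  ∀ (R : Type) [Ring R] (m n d : ℕ)
    (M : Matrix (Fin d) (Fin d) (MonoidAlgebra R ((EF m).obj (fm n)))),
    ∃ E : Finset (FreeGroup (Fin n)), ∀ (G H : GrpCat.{0}) (f : fm n ⟶ G) (g : fm n ⟶ H),
      (∀ w ∈ E, f.hom w = 1 ↔ g.hom w = 1) → ev R m M f * ev R m M f = ev R m M f →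
      ev R m M g * ev R m M g = ev R m M g

/-- LIMG: the limit of a sequence of marked groups along an ultrafilter. (`G'` is the quotient of
`Fₙ` by the words `w` with `f_k(w) = 1` for almost all `k`. It is torsion-free by the assumption on
`f_k`, and locally embeddable into `C`: for a finite set `E'` of elements of `G'` choose words, and
`k` such that for all words `u v (uv)'⁻¹`, `u v⁻¹` made of them the values in `G'` and in `G_k` are
1 at the same time; put `f(x) = f_k(word of x)`.) -/
def S_LIMG : Prop :=
  ∀ (C : GrpCat.{0} → Prop) (n : ℕ) (u : Ultrafilter ℕ), (u : Filter ℕ) ≤ Filter.atTop →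
    ∀ (G : ℕ → GrpCat.{0}) (f : ∀ k, fm n ⟶ G k), (∀ k, C (G k)) → (∀ k, NoTors (f k) k) →
    ∃ (G' : GrpCat.{0}) (f' : fm n ⟶ G'), Function.Surjective f'.hom ∧ TFr G' ∧ LE C G' ∧
      ∀ w, f'.hom w = 1 ↔ ∀ᶠ k in (u : Filter ℕ), (f k).hom w = 1

/-- SUB: local embeddings. Let `G` be torsion-free and locally embeddable into `C`, `f : Fₙ → G`,
`E` a finite set of words and `L ≥ 0`. There is a map `g` to a group in `C` with the same relations
as `f` of length at most `L` and in `E`, and without torsion of length at most `L`. (Apply `LE` to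
a ball: the set of the values of all words of length at most `N`, `N` large. The map `Fₙ → Q` is
defined by the images of the generators; on words of length at most `N` it agrees with the local
embedding.) -/
def S_SUB : Prop :=
  ∀ (C : GrpCat.{0} → Prop) (G : GrpCat.{0}), TFr G → LE C G → ∀ (n : ℕ) (f : fm n ⟶ G)
    (E : Finset (FreeGroup (Fin n))) (L : ℕ), ∃ (Q : GrpCat.{0}) (g : fm n ⟶ Q), C Q ∧
      NoTors g L ∧ rels g L = rels f L ∧ ∀ w ∈ E, f.hom w = 1 ↔ g.hom w = 1

/-- REP: every idempotent matrix over the group ring of `ℤᵐ × G` is the value of a formal matrix for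
some map `Fₙ → G`. (`EF_range`; enumerate the projections to `G` of the supports of the entries.) -/
def S_REP : Prop :=
  ∀ (R : Type) [Ring R] (m : ℕ) (G : GrpCat.{0}) (e : Idem (MonoidAlgebra R ((EF m).obj G))),
    ∃ (n : ℕ) (M : Matrix (Fin e.n) (Fin e.n) (MonoidAlgebra R ((EF m).obj (fm n))))
      (f : fm n ⟶ G), ev R m M f = e.e

/-- MAIN: the negative `K`-groups of the torsion-free groups which are locally embeddable into `C`
vanish if and only if the small classes are uniformly trivial for the groups in `C`. -/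
def S_MAIN : Prop :=
  ∀ (C : GrpCat.{0} → Prop) (R : Type) [Ring R] (m : ℕ),
    (∀ G : GrpCat.{0}, TFr G → LE C G → ∀ x : (Kneg m).obj ((gr R).obj G), x = 0) ↔
    ∀ (n d : ℕ) (M : Matrix (Fin d) (Fin d) (MonoidAlgebra R ((EF m).obj (fm n)))), ∃ L : ℕ,
      ∀ (G : GrpCat.{0}), C G → ∀ f : fm n ⟶ G, ev R m M f * ev R m M f = ev R m M f →
        NoTors f L → Triv R m M (toPG n (rels f L))

end Pool.Agent.L0h7.KN
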